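import Pool.Agent.Helper60.Plz.Defs

/-!
# Packet C for MP_8e7d5e_co: locally sparse graphs with many edges have a K_5 model
-/

set_option autoImplicit false

namespace Pool.Agent.Helper5.Plz

open Pool.Agent.Helper60.Plz

open Classical in
/-- The number of edges between two sets (ordered pairs). -/
noncomputable def eB {V : Type} (H : SimpleGraph V) (P Q : Finset V) : ℕ :=
  ∑ x ∈ P, ∑ y ∈ Q, if H.Adj x y then 1 else 0

theorem eIn_eq_eB {V : Type} (H : SimpleGraph V) (P : Finset V) : eIn H P = eB H P P := by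
  classical
  unfold eIn eB
  rw [Finset.card_filter, Finset.sum_product]

theorem eB_comm {V : Type} (H : SimpleGraph V) (P Q : Finset V) : eB H P Q = eB H Q P := by
  classical
  unfold eB
  rw [Finset.sum_comm]
  simp only [H.adj_comm]

theorem eIn_union {V : Type} [DecidableEq V] (H : SimpleGraph V) (P Q : Finset V)
    (h : Disjoint P Q) :
    eIn H (P ∪ Q) = eIn H P + eIn H Q + 2 * eB H P Q := by
  classical
  have h1 : eIn H (P ∪ Q) = eB H P P + eB H P Q + (eB H Q P + eB H Q Q) := by
    rw [eIn_eq_eB]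
    unfold eB
    rw [Finset.sum_union h]
    simp only [Finset.sum_union h, Finset.sum_add_distrib]
  rw [h1, eIn_eq_eB, eIn_eq_eB, eB_comm H Q P]
  ring

theorem eB_eq_zero {V : Type} (H : SimpleGraph V) (P Q : Finset V) (h : ¬ Touch H P Q) :
    eB H P Q = 0 := by
  classical
  unfold eB
  refine Finset.sum_eq_zero fun x hx => Finset.sum_eq_zero fun y hy => ?_
  rw [if_neg]
  intro hadj
  exact h ⟨x, hx, y, hy, hadj⟩

theorem two_mul_card_le {V : Type} (H : SimpleGraph V) (P : Finset V)
    (hP : (H.induce (P : Set V)).Connected) : 2 * P.card ≤ eIn H P + 2 := by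
  classical
  have h1 := hP.card_vert_le_card_edgeSet_add_one
  have h2 : Nat.card (P : Set V) = P.card := by simp
  have h3 := (H.induce (P : Set V)).sum_degrees_eq_twice_card_edges
  have h4 : Nat.card (H.induce (P : Set V)).edgeSet = (H.induce (P : Set V)).edgeFinset.card := by
    rw [Nat.card_eq_fintype_card, ← SimpleGraph.edgeFinset_card]
  have h5 : eIn H P = ∑ v : (P : Set V), (H.induce (P : Set V)).degree v := by
    rw [eIn_eq_eB]
    unfold eB
    rw [← Finset.sum_coe_sort P]
    refine Finset.sum_congr rfl fun x _ => ?_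
    rw [← Finset.sum_coe_sort P, ← SimpleGraph.card_neighborFinset_eq_degree,
      SimpleGraph.neighborFinset_eq_filter, Finset.card_filter]
    rfl
  rw [h5, h3]
  omega

theorem packetC (hA : GoalA) (hB : GoalB) : GoalC := by
  classical
  intro V hVfin H D m g hm hdeg hg hsp W hWne hW
  -- a minimal dense set
  obtain ⟨W', hne, hin, hmin⟩ : ∃ W' : Finset V, W'.Nonempty ∧
      2 * (m + 3) * W'.card ≤ m * eIn H W' ∧
      ∀ A : Finset V, A.Nonempty → A.card < W'.card → m * eIn H A < 2 * (m + 3) * A.card := by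
    have hex : ∃ n : ℕ, ∃ W' : Finset V, W'.card = n ∧ W'.Nonempty ∧
      2 * (m + 3) * W'.card ≤ m * eIn H W' := ⟨_, W, rfl, hWne, hW⟩
    obtain ⟨W', hc, hne, hin⟩ := Nat.find_spec hex
    refine ⟨W', hne, hin, fun A hA hlt => ?_⟩
    by_contra hcon
    push Not at hcon
    rw [hc] at hlt
    exact Nat.find_min hex hlt ⟨A, rfl, hA, hcon⟩
  have hpos : 1 ≤ W'.card := hne.card_pos
  -- it is connected
  have hconn : (H.induce (W' : Set V)).Connected := by
    obtain ⟨x0, hx0⟩ := hne
    have : Nonempty (W' : Set V) := ⟨⟨x0, hx0⟩⟩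
    refine ⟨?_⟩
    by_contra hpre
    unfold SimpleGraph.Preconnected at hpre
    push Not at hpre
    obtain ⟨x, y, hxy⟩ := hpre
    let A : Finset V := W'.filter fun z => ∃ hz : z ∈ (W' : Set V),
      (H.induce (W' : Set V)).Reachable x ⟨z, hz⟩
    let B : Finset V := W' \ A
    have hAW : A ⊆ W' := Finset.filter_subset _ _
    have hxA : (x : V) ∈ A := Finset.mem_filter.2 ⟨x.2, x.2, SimpleGraph.Reachable.refl _⟩
    have hyA : (y : V) ∉ A := by
      intro h
      obtain ⟨_, hz, hr⟩ := Finset.mem_filter.1 h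
      exact hxy hr
    have hyB : (y : V) ∈ B := Finset.mem_sdiff.2 ⟨y.2, hyA⟩
    have hdis : Disjoint A B := Finset.disjoint_sdiff
    have hun : A ∪ B = W' := Finset.union_sdiff_of_subset hAW
    have hcard : A.card + B.card = W'.card := by
      rw [← Finset.card_union_of_disjoint hdis, hun]
    have hnt : ¬ Touch H A B := by
      rintro ⟨u, hu, v, hv, huv⟩
      obtain ⟨huW, hu', hru⟩ := Finset.mem_filter.1 hu
      obtain ⟨hvW, hvA⟩ := Finset.mem_sdiff.1 hv
      refine hvA (Finset.mem_filter.2 ⟨hvW, hvW, hru.trans ?_⟩)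
      exact SimpleGraph.Adj.reachable (by simpa using huv)
    have he := eIn_union H A B hdis
    rw [hun, eB_eq_zero H A B hnt] at he
    have hA1 := hmin A ⟨_, hxA⟩ (by
      have : 0 < B.card := Finset.card_pos.2 ⟨_, hyB⟩
      omega)
    have hB1 := hmin B ⟨_, hyB⟩ (by
      have : 0 < A.card := Finset.card_pos.2 ⟨_, hxA⟩
      omega)
    rw [he, ← hcard] at hin
    nlinarith
  -- it is large
  have hbig : g < W'.card := by
    by_contra hcon
    push Not at hcon
    have h1 := hsp W' hne hcon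
    nlinarith
  have hDm : m ≤ (D + 1) * m := Nat.le_mul_of_pos_left m (Nat.succ_pos D)
  obtain ⟨F, hF, hcov, hsize⟩ := hB V hVfin H D m hm hdeg W' hconn (by omega)
  have hWF : W' = F.biUnion id := by
    ext x
    simp [hcov x]
  have hpd : ∀ P ∈ F, ∀ Q ∈ F, P ≠ Q → Disjoint (id P) (id Q) := fun P hP Q hQ h =>
    hF.disj P hP Q hQ h
  have hFne : F.Nonempty := by
    obtain ⟨x0, hx0⟩ := hne
    obtain ⟨P, hP, _⟩ := (hcov x0).1 hx0
    exact ⟨P, hP⟩
  have hcardW : W'.card = ∑ P ∈ F, P.card := by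
    rw [hWF, Finset.card_biUnion hpd]
    rfl
  have hmF : m * F.card ≤ W'.card := by
    rw [hcardW, mul_comm, ← smul_eq_mul]
    exact Finset.card_nsmul_le_sum _ _ _ fun P hP => (hsize P hP).1
  have hPne : ∀ P ∈ F, P.Nonempty := fun P hP =>
    Finset.card_pos.1 (lt_of_lt_of_le (by omega) (hsize P hP).1)
  have hPP : ∀ P ∈ F, eIn H P + 2 ≤ 2 * P.card := fun P hP =>
    hsp P (hPne P hP) (by have := (hsize P hP).2; omega)
  have hPQ : ∀ P ∈ F, ∀ Q ∈ F, P ≠ Q → eB H P Q ≤ if Touch H P Q then 1 else 0 := by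
    intro P hP Q hQ hne
    by_cases ht : Touch H P Q
    · rw [if_pos ht]
      have hd := hF.disj P hP Q hQ hne
      have h1 := eIn_union H P Q hd
      have h2 := hsp (P ∪ Q) ((hPne P hP).mono Finset.subset_union_left) (by
        have h3 := (hsize P hP).2
        have h4 := (hsize Q hQ).2
        have h5 := Finset.card_union_le P Q
        omega)
      rw [Finset.card_union_of_disjoint hd] at h2
      have h6 := two_mul_card_le H P (hF.conn P hP)
      have h7 := two_mul_card_le H Q (hF.conn Q hQ)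
      omega
    · rw [if_neg ht, eB_eq_zero H P Q ht]
  have hpairs : pairs H F = ∑ P ∈ F, ∑ Q ∈ F, if P ≠ Q ∧ Touch H P Q then 1 else 0 := by
    unfold pairs
    rw [Finset.card_filter, Finset.sum_product]
  have hsum : eIn H W' = ∑ P ∈ F, ∑ Q ∈ F, eB H P Q := by
    rw [eIn_eq_eB]
    unfold eB
    conv_lhs => rw [hWF]
    rw [Finset.sum_biUnion hpd]
    refine Finset.sum_congr rfl fun P _ => ?_
    simp only [Finset.sum_biUnion hpd, id]
    rw [Finset.sum_comm]
  have hle : eIn H W' + 2 * F.card ≤ 2 * W'.card + pairs H F := by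
    rw [hsum, hpairs, hcardW, Finset.mul_sum, ← Finset.sum_add_distrib]
    have : 2 * F.card = ∑ P ∈ F, 2 := by simp [mul_comm]
    rw [this, ← Finset.sum_add_distrib]
    refine Finset.sum_le_sum fun P hP => ?_
    rw [← Finset.add_sum_erase F _ hP, ← Finset.add_sum_erase F (fun Q => if P ≠ Q ∧ Touch H P Q then 1 else 0) hP]
    have h1 := hPP P hP
    rw [eIn_eq_eB] at h1
    have h2 : ∑ Q ∈ F.erase P, eB H P Q ≤
        ∑ Q ∈ F.erase P, if P ≠ Q ∧ Touch H P Q then 1 else 0 := by
      refine Finset.sum_le_sum fun Q hQ => ?_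
      obtain ⟨hne, hQF⟩ := Finset.mem_erase.1 hQ
      have h3 := hPQ P hP Q hQF hne.symm
      simpa [hne.symm] using h3
    omega
  have hfin : 2 ^ 3 * F.card ≤ pairs H F := by
    have h1 : m * (2 ^ 3 * F.card) ≤ m * pairs H F := by nlinarith
    exact Nat.le_of_mul_le_mul_left h1 (by omega)
  obtain ⟨f, hf1, hf2, hf3, _, _⟩ := hA V H 3 F hF hFne hfin
  exact ⟨f, hf1, hf2, hf3⟩

end Pool.Agent.Helper5.Plz
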